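import Pool.Agent.Lib.MP_abcfcd_nt.Defs

/-!
# Fourier coefficients of automorphic representations of `U7` attached to nilpotent orbits

The space `G(ℚ) \ G(𝔸)` is `GX = G(𝔸) / G(ℚ)` after the inversion `g ↦ g⁻¹`: a function `F` on `GX`
is the automorphic function `φ g = F (g⁻¹)`.
-/

set_option autoImplicit false

open Matrix Topology MeasureTheory
open scoped RestrictedProduct ENNReal

namespace Pool.Agent.MPabcfcd

section lie

variable {R : Type} [CommRing R]

/-- Skew-Hermitian matrices: the Lie algebra of `U7`. -/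
def Sk (Z : M7 (E7 R)) : Prop := Zᴴ * J7 (E7 R) + J7 (E7 R) * Z = 0

/-- The matrices of degree `i` for the grading given by `H`: `[H, T] = i T`. -/
def gr (H : M7 (E7 R)) (i : ℤ) : Submodule (E7 R) (M7 (E7 R)) where
  carrier := {T | H * T - T * H = (i : E7 R) • T}
  add_mem' {S T} hS hT := by
    show H * (S + T) - (S + T) * H = (i : E7 R) • (S + T)
    have hS' : H * S - S * H = (i : E7 R) • S := hS
    have hT' : H * T - T * H = (i : E7 R) • T := hT
    rw [smul_add, ← hS', ← hT', mul_add, add_mul]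
    abel
  zero_mem' := by
    show H * 0 - 0 * H = (i : E7 R) • 0
    simp
  smul_mem' c T hT := by
    show H * (c • T) - (c • T) * H = (i : E7 R) • (c • T)
    have hT' : H * T - T * H = (i : E7 R) • T := hT
    rw [smul_comm, ← hT', Matrix.mul_smul, Matrix.smul_mul, smul_sub]

/-- The sum of the matrices of degree at least `k`. -/
def fil (H : M7 (E7 R)) (k : ℤ) : Submodule (E7 R) (M7 (E7 R)) := ⨆ (i : ℤ) (_ : k ≤ i), gr H i

theorem mem_gr {H T : M7 (E7 R)} {i : ℤ} : T ∈ gr H i ↔ H * T - T * H = (i : E7 R) • T := Iff.rfl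

theorem gr_le_fil (H : M7 (E7 R)) {i k : ℤ} (h : k ≤ i) : gr H i ≤ fil H k :=
  le_iSup₂_of_le i h le_rfl

theorem mul_mem_gr {H S T : M7 (E7 R)} {i j : ℤ} (hS : S ∈ gr H i) (hT : T ∈ gr H j) :
    S * T ∈ gr H (i + j) := by
  rw [mem_gr] at hS hT ⊢
  have h : H * (S * T) - S * T * H = (H * S - S * H) * T + S * (H * T - T * H) := by
    noncomm_ring
  rw [h, hS, hT, Matrix.smul_mul, Matrix.mul_smul, ← add_smul, Int.cast_add]

theorem fil_induction {H : M7 (E7 R)} {k : ℤ} {p : M7 (E7 R) → Prop}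
    (h1 : ∀ i, k ≤ i → ∀ T ∈ gr H i, p T) (h0 : p 0) (h2 : ∀ S T, p S → p T → p (S + T))
    {T : M7 (E7 R)} (hT : T ∈ fil H k) : p T := by
  refine Submodule.iSup_induction (fun i => ⨆ (_ : k ≤ i), gr H i) (motive := p) hT ?_ h0 h2
  intro i T hT
  by_cases hi : k ≤ i
  · rw [iSup_pos hi] at hT
    exact h1 i hi T hT
  · rw [iSup_neg hi] at hT
    rw [(Submodule.mem_bot _).1 hT]
    exact h0

theorem mul_mem_fil {H S T : M7 (E7 R)} {i j : ℤ} (hS : S ∈ fil H i) (hT : T ∈ fil H j) :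
    S * T ∈ fil H (i + j) := by
  refine fil_induction (p := fun S => S * T ∈ fil H (i + j)) ?_ ?_ ?_ hS
  · intro a ha S hS
    refine fil_induction (p := fun T => S * T ∈ fil H (i + j)) ?_ ?_ ?_ hT
    · intro b hb T hT
      exact gr_le_fil H (add_le_add ha hb) (mul_mem_gr hS hT)
    · rw [mul_zero]
      exact Submodule.zero_mem _
    · intro A B hA hB
      rw [mul_add]
      exact Submodule.add_mem _ hA hB
  · rw [zero_mul]
    exact Submodule.zero_mem _
  · intro A B hA hB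
    rw [add_mul]
    exact Submodule.add_mem _ hA hB

theorem fil_anti (H : M7 (E7 R)) {i j : ℤ} (h : i ≤ j) : fil H j ≤ fil H i :=
  iSup₂_le fun _ ha => gr_le_fil H (h.trans ha)

theorem adj_mem_gr {H T : M7 (E7 R)} (hH : Sk H) {i : ℤ} (hT : T ∈ gr H i) :
    J7 (E7 R) * Tᴴ * J7 (E7 R) ∈ gr H i := by
  rw [mem_gr] at hT ⊢
  have h1 : Hᴴ * J7 (E7 R) = -(J7 (E7 R) * H) := eq_neg_of_add_eq_zero_left hH
  have h2 : H * J7 (E7 R) = -(J7 (E7 R) * Hᴴ) := by
    have h3 := congrArg (fun M => J7 (E7 R) * M * J7 (E7 R)) h1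
    simp only [mul_neg, neg_mul] at h3
    rw [← Matrix.mul_assoc, Matrix.mul_assoc (J7 (E7 R) * Hᴴ), J7_sq, Matrix.mul_one,
      ← Matrix.mul_assoc (J7 (E7 R)) (J7 (E7 R)) H, J7_sq, Matrix.one_mul] at h3
    rw [h3, neg_neg]
  have h4 : (H * T - T * H)ᴴ = (i : E7 R) • Tᴴ := by
    rw [hT, Matrix.conjTranspose_smul, star_intCast]
  rw [Matrix.conjTranspose_sub, Matrix.conjTranspose_mul, Matrix.conjTranspose_mul] at h4
  calc H * (J7 (E7 R) * Tᴴ * J7 (E7 R)) - J7 (E7 R) * Tᴴ * J7 (E7 R) * H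
      = (H * J7 (E7 R)) * Tᴴ * J7 (E7 R) - J7 (E7 R) * Tᴴ * (J7 (E7 R) * H) := by
        simp only [Matrix.mul_assoc]
    _ = J7 (E7 R) * (Tᴴ * Hᴴ - Hᴴ * Tᴴ) * J7 (E7 R) := by
        have h5 : J7 (E7 R) * H = -(Hᴴ * J7 (E7 R)) := by rw [h1, neg_neg]
        rw [h2, h5, mul_sub, sub_mul]
        simp only [neg_mul, mul_neg, Matrix.mul_assoc]
        abel
    _ = (i : E7 R) • (J7 (E7 R) * Tᴴ * J7 (E7 R)) := by
        rw [h4, Matrix.mul_smul, Matrix.smul_mul]

theorem adj_mem_fil {H T : M7 (E7 R)} (hH : Sk H) {i : ℤ} (hT : T ∈ fil H i) :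
    J7 (E7 R) * Tᴴ * J7 (E7 R) ∈ fil H i := by
  refine fil_induction (p := fun T => J7 (E7 R) * Tᴴ * J7 (E7 R) ∈ fil H i) ?_ ?_ ?_ hT
  · intro a ha T hT
    exact gr_le_fil H ha (adj_mem_gr hH hT)
  · simp
  · intro A B hA hB
    rw [Matrix.conjTranspose_add, mul_add, add_mul]
    exact Submodule.add_mem _ hA hB

/-- The unipotent group `exp (⨁_{i ≥ 2} 𝔤_i)` of a grading element: the unitary matrices `v` such
that `v - 1` is a sum of matrices of degrees at least two. -/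
def uni (H : M7 (E7 R)) (hH : Sk H) : Subgroup (U7 R) where
  carrier := {v | v.mat - 1 ∈ fil H 2}
  mul_mem' {a b} ha hb := by
    have h : (a * b).mat - 1 = (a.mat - 1) * (b.mat - 1) + (a.mat - 1) + (b.mat - 1) := by
      rw [U7.mat_mul]
      noncomm_ring
    show (a * b).mat - 1 ∈ fil H 2
    rw [h]
    exact Submodule.add_mem _ (Submodule.add_mem _
      (fil_anti H (by norm_num) (mul_mem_fil ha hb)) ha) hb
  one_mem' := by
    show (1 : U7 R).mat - 1 ∈ fil H 2
    rw [U7.mat_one, sub_self]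
    exact Submodule.zero_mem _
  inv_mem' {a} ha := by
    show (a⁻¹).mat - 1 ∈ fil H 2
    have h : (a⁻¹).mat - 1 = J7 (E7 R) * (a.mat - 1)ᴴ * J7 (E7 R) := by
      rw [U7.mat_inv, Matrix.conjTranspose_sub, Matrix.conjTranspose_one, mul_sub, sub_mul,
        mul_one, J7_sq]
    rw [h]
    exact adj_mem_fil hH ha

/-- Extension of scalars. -/
def mapM {S : Type} [CommRing S] (f : R →+* S) (Z : M7 (E7 R)) : M7 (E7 S) := Z.map (E7.map f)

theorem mapM_J {S : Type} [CommRing S] (f : R →+* S) : mapM f (J7 (E7 R)) = J7 (E7 S) := by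
  refine Matrix.ext fun i j => ?_
  by_cases h : j = i.rev
  · simp [mapM, J7, h]
  · simp [mapM, J7, h]

theorem mapM_star {S : Type} [CommRing S] (f : R →+* S) (Z : M7 (E7 R)) :
    mapM f Zᴴ = (mapM f Z)ᴴ := by
  refine Matrix.ext fun i j => ?_
  simp [mapM, Matrix.conjTranspose_apply, E7.map_star]

theorem Sk.map {S : Type} [CommRing S] (f : R →+* S) {Z : M7 (E7 R)} (hZ : Sk Z) :
    Sk (mapM f Z) := by
  have h : mapM f (Zᴴ * J7 (E7 R) + J7 (E7 R) * Z) = 0 := by
    rw [hZ]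
    exact Matrix.map_zero _ (map_zero _)
  have h2 : mapM f (Zᴴ * J7 (E7 R) + J7 (E7 R) * Z) =
      mapM f Zᴴ * mapM f (J7 (E7 R)) + mapM f (J7 (E7 R)) * mapM f Z := by
    simp only [mapM]
    rw [Matrix.map_add _ (map_add _), Matrix.map_mul, Matrix.map_mul]
  rw [h2, mapM_J, mapM_star] at h
  exact h

end lie

/-! ### Nilpotent elements, unipotent groups and their characters -/

/-- An `sl₂`-triple `(e, h, X)` in the Lie algebra of `U7` over `ℚ`, with `[h, X] = -2 X`. -/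
structure Sl2 where
  /-- the raising element -/
  e : M7 (E7 ℚ)
  /-- the grading element -/
  h : M7 (E7 ℚ)
  /-- the nilpotent element -/
  X : M7 (E7 ℚ)
  sk_e : Sk e
  sk_h : Sk h
  sk_X : Sk X
  h_e : h * e - e * h = 2 • e
  h_X : h * X - X * h = -(2 • X)
  e_X : e * X - X * e = h

/-- The group `V_X(𝔸)`. -/
noncomputable def Sl2.V (t : Sl2) : Subgroup (U7 AQ) := uni (mapM ratAQ t.h) (t.sk_h.map ratAQ)

/-- The group `V_X(ℚ)` as a subgroup of `V_X(𝔸)`. -/
noncomputable def Sl2.VQ (t : Sl2) : Subgroup t.V := Gam.subgroupOf t.V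

/-- A rational number `q` such that `x - q` is integral at all primes. -/
noncomputable def ratPart (x : Af) : ℚ :=
  open Classical in
  if h : ∃ q : ℚ, ∀ p : Nat.Primes, x p - (q : ℚ_[p]) ∈ (PadicInt.subring p : Subring ℚ_[p])
  then h.choose else 0

/-- The standard character of `𝔸 / ℚ`: if `x = q + (r, z)` with a rational number `q`, a real
number `r` and `z` integral at all primes, then `psi x = exp (2 π i r)`. -/
noncomputable def psi (x : AQ) : Circle := Real.fourierChar (x.1 - ratPart x.2)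

/-- The character `ψ_X (exp Z) = ψ (tr (X Z))` of `V_X(𝔸)`. Since `X` has degree `-2`, it is
`ψ (tr (X (v - 1)))`, and this trace is in `𝔸`. -/
noncomputable def Sl2.ch (t : Sl2) (v : U7 AQ) : Circle :=
  psi (Matrix.trace (mapM ratAQ t.X * (v.mat - 1))).re

instance {R : Type} [CommRing R] [TopologicalSpace R] : MeasurableSpace (U7 R) := borel _

instance {R : Type} [CommRing R] [TopologicalSpace R] : BorelSpace (U7 R) := ⟨rfl⟩

/-- Invariant probability measures on a homogeneous space. -/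
structure InvProb {V : Type} [Group V] [MeasurableSpace V] {W : Subgroup V}
    (ν : Measure (V ⧸ W)) : Prop where
  prob : IsProbabilityMeasure ν
  inv : ∀ g : V, ν.map (fun x => g • x) = ν

/-- The Fourier coefficient at `g` of the automorphic function `φ g = F (g⁻¹)`. It is
`∫ φ (v g) ψ_X(v)⁻¹ dv` over `V_X(ℚ) \ V_X(𝔸)`, after the substitution `v ↦ v⁻¹`. -/
noncomputable def Sl2.coef (t : Sl2) (ν : Measure (t.V ⧸ t.VQ)) (F : GX → ℂ) (g : U7 AQ) : ℂ :=
  ∫ v : t.V ⧸ t.VQ, F (QuotientGroup.mk (g⁻¹ * (v.out : U7 AQ))) * (t.ch (v.out : U7 AQ) : ℂ) ∂ν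

/-! ### Automorphic representations -/

/-- Invariant Radon measures on `G(𝔸) / G(ℚ)`. -/
structure InvRadon (m : Measure GX) : Prop where
  ne_zero : m ≠ 0
  fin : IsFiniteMeasureOnCompacts m
  inv : ∀ g : U7 AQ, m.map (fun x => g • x) = m

/-- Closed invariant subspaces of the space of square integrable automorphic functions. -/
structure IsSub (m : Measure GX) (π : Submodule ℂ (Lp ℂ 2 m)) : Prop where
  closed : IsClosed (π : Set (Lp ℂ 2 m))
  inv : ∀ (g : U7 AQ) (φ φ' : Lp ℂ 2 m), φ ∈ π → φ' =ᵐ[m] (fun x => φ (g⁻¹ • x)) → φ' ∈ π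

/-- Irreducible closed invariant subspaces. -/
structure IsIrr (m : Measure GX) (π : Submodule ℂ (Lp ℂ 2 m)) : Prop where
  sub : IsSub m π
  ne_bot : π ≠ ⊥
  irr : ∀ σ : Submodule ℂ (Lp ℂ 2 m), σ ≤ π → IsSub m σ → σ = ⊥ ∨ σ = π

/-- The Jordan type of a nilpotent matrix, in terms of the ranks of the powers. -/
def HasType (p : Nat.Partition 7) (X : M7 (E7 ℚ)) : Prop :=
  ∀ k : ℕ, (X ^ k).rank = (p.parts.map fun i => i - k).sum

/-- The subspace `π` has a nonzero Fourier coefficient attached to `X`. -/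
def CoefAt (m : Measure GX) (π : Submodule ℂ (Lp ℂ 2 m)) (t : Sl2) : Prop :=
  ∃ F : GX → ℂ, Continuous F ∧ (∃ φ ∈ π, φ =ᵐ[m] F) ∧
    ∃ ν : Measure (t.V ⧸ t.VQ), InvProb ν ∧ ∃ g : U7 AQ, t.coef ν F g ≠ 0

/-- The subspace `π` has a nonzero Fourier coefficient attached to the partition `p`. -/
def HasCoef (m : Measure GX) (π : Submodule ℂ (Lp ℂ 2 m)) (p : Nat.Partition 7) : Prop :=
  ∃ t : Sl2, HasType p t.X ∧ CoefAt m π t

/-- The dominance order: `p ≥ q`. -/
def Dom (p q : Nat.Partition 7) : Prop :=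
  ∀ k : ℕ, ((q.parts.sort (· ≥ ·)).take k).sum ≤ ((p.parts.sort (· ≥ ·)).take k).sum

/-- The set of maximal partitions with nonzero Fourier coefficients. -/
def pm (m : Measure GX) (π : Submodule ℂ (Lp ℂ 2 m)) : Set (Nat.Partition 7) :=
  {p | HasCoef m π p ∧ ∀ p', Dom p' p → p' ≠ p → ¬ HasCoef m π p'}

end Pool.Agent.MPabcfcd
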