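import Mathlib

/-!
# The quasi-split unitary group in seven variables for `ℚ(√-7)`

`E7 R = R[√-7]`, `Af`, `AQ`: the finite adeles and the adeles of `ℚ`, `U7 R`: the unitary group of
the antidiagonal Hermitian form of rank seven, `Gam`: the group of rational points in the adelic
points.
-/

set_option autoImplicit false

open Matrix Topology
open scoped RestrictedProduct

namespace Pool.Agent.MPabcfcd

/-! ### Rings -/

/-- The ring `R[√-7]`. -/
abbrev E7 (R : Type) [CommRing R] : Type := QuadraticAlgebra R (-7) 0

section rings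

variable {R S T : Type} [CommRing R] [CommRing S] [CommRing T]

/-- The map `R[√-7] → S[√-7]` of a ring homomorphism `R → S`. -/
def E7.map (f : R →+* S) : E7 R →+* E7 S where
  toFun z := ⟨f z.re, f z.im⟩
  map_one' := by
    ext
    · exact map_one f
    · exact map_zero f
  map_mul' x y := by
    ext
    · simp only [QuadraticAlgebra.re_mul, map_add, map_mul, map_neg, map_ofNat]
    · simp only [QuadraticAlgebra.im_mul, map_add, map_mul, map_zero]
  map_zero' := by
    ext
    · exact map_zero f
    · exact map_zero f
  map_add' x y := by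
    ext
    · exact map_add f _ _
    · exact map_add f _ _

@[simp] theorem E7.map_re (f : R →+* S) (z : E7 R) : (E7.map f z).re = f z.re := rfl

@[simp] theorem E7.map_im (f : R →+* S) (z : E7 R) : (E7.map f z).im = f z.im := rfl

theorem E7.map_star (f : R →+* S) (z : E7 R) : E7.map f (star z) = star (E7.map f z) := by
  ext
  · simp
  · simp

section top

variable [TopologicalSpace R]

instance : TopologicalSpace (E7 R) :=
  TopologicalSpace.induced (fun z => (z.re, z.im)) inferInstance

theorem E7.isInducing : IsInducing (fun z : E7 R => (z.re, z.im)) := ⟨rfl⟩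

theorem E7.continuous_re : Continuous (fun z : E7 R => z.re) :=
  continuous_fst.comp E7.isInducing.continuous

theorem E7.continuous_im : Continuous (fun z : E7 R => z.im) :=
  continuous_snd.comp E7.isInducing.continuous

/-- `R[√-7]` is homeomorphic to `R × R`. -/
def E7.homeo (R : Type) [CommRing R] [TopologicalSpace R] : E7 R ≃ₜ R × R where
  toEquiv := QuadraticAlgebra.equivProd _ _
  continuous_toFun := E7.isInducing.continuous
  continuous_invFun := E7.isInducing.continuous_iff.2 continuous_id

theorem E7.continuous_mk {X : Type*} [TopologicalSpace X] {f g : X → R} (hf : Continuous f)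
    (hg : Continuous g) : Continuous (fun x => (⟨f x, g x⟩ : E7 R)) :=
  E7.isInducing.continuous_iff.2 (hf.prodMk hg)

instance [IsTopologicalRing R] : IsTopologicalRing (E7 R) where
  continuous_add := E7.continuous_mk
    ((E7.continuous_re.comp continuous_fst).add (E7.continuous_re.comp continuous_snd))
    ((E7.continuous_im.comp continuous_fst).add (E7.continuous_im.comp continuous_snd))
  continuous_mul := by
    have h1 : Continuous fun p : E7 R × E7 R => p.1.re := E7.continuous_re.comp continuous_fst
    have h2 : Continuous fun p : E7 R × E7 R => p.2.re := E7.continuous_re.comp continuous_snd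
    have h3 : Continuous fun p : E7 R × E7 R => p.1.im := E7.continuous_im.comp continuous_fst
    have h4 : Continuous fun p : E7 R × E7 R => p.2.im := E7.continuous_im.comp continuous_snd
    exact E7.continuous_mk ((h1.mul h2).add ((continuous_const.mul h3).mul h4))
      (((h1.mul h4).add (h3.mul h2)).add ((continuous_const.mul h3).mul h4))
  continuous_neg := E7.continuous_mk (E7.continuous_re.neg) (E7.continuous_im.neg)

instance [IsTopologicalRing R] : ContinuousStar (E7 R) where
  continuous_star := by
    have h1 : Continuous fun p : E7 R => p.re + 0 * p.im :=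
      E7.continuous_re.add (continuous_const.mul E7.continuous_im)
    exact E7.continuous_mk h1 E7.continuous_im.neg

end top

end rings

/-! ### Adeles -/

instance instFactPrimes (p : Nat.Primes) : Fact (Nat.Prime p) := ⟨p.2⟩

/-- The finite adeles of `ℚ`. -/
abbrev Af : Type := Πʳ p : Nat.Primes, [ℚ_[p], PadicInt.subring p]

instance : Fact (∀ p : Nat.Primes, IsOpen ((PadicInt.subring p : Subring ℚ_[p]) : Set ℚ_[p])) := by
  refine ⟨fun p => ?_⟩
  have h : ((PadicInt.subring p : Subring ℚ_[p]) : Set ℚ_[p]) = Metric.closedBall 0 1 := by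
    ext x
    simp [PadicInt.subring]
  rw [h]
  exact IsUltrametricDist.isOpen_closedBall _ one_ne_zero

instance (p : Nat.Primes) : CompactSpace (PadicInt.subring p : Subring ℚ_[p]) :=
  inferInstanceAs (CompactSpace ℤ_[p])

/-- The adeles of `ℚ`. -/
abbrev AQ : Type := ℝ × Af

theorem ratAf_aux (q : ℚ) : ∀ᶠ p : Nat.Primes in Filter.cofinite,
    (q : ℚ_[p]) ∈ (PadicInt.subring p : Subring ℚ_[p]) := by
  have hfin : {p : Nat.Primes | (p : ℕ) ∣ q.den}.Finite := by
    refine Set.Finite.of_finite_image (f := fun p : Nat.Primes => (p : ℕ)) ?_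
      (fun a _ b _ h => Subtype.ext h)
    refine (Set.finite_Iic q.den).subset ?_
    rintro _ ⟨p, hp, rfl⟩
    exact Nat.le_of_dvd q.den_pos hp
  rw [Filter.eventually_cofinite]
  refine hfin.subset fun p hp => ?_
  by_contra h
  exact hp (Padic.norm_rat_le_one h)

/-- The diagonal embedding of the rational numbers into the finite adeles. -/
noncomputable def ratAf : ℚ →+* Af where
  toFun q := ⟨fun p => (q : ℚ_[p]), ratAf_aux q⟩
  map_one' := by ext p; simp
  map_mul' x y := by ext p; simp
  map_zero' := by ext p; simp
  map_add' x y := by ext p; simp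

/-- The diagonal embedding of the rational numbers into the adeles. -/
noncomputable def ratAQ : ℚ →+* AQ := RingHom.prod (Rat.castHom ℝ) ratAf

/-- The component at infinity of an adele. -/
noncomputable def infAQ : AQ →+* ℝ := RingHom.fst ℝ Af

/-- The finite component of an adele. -/
noncomputable def finAQ : AQ →+* Af := RingHom.snd ℝ Af

/-! ### The unitary group -/

section group

variable {R S : Type} [CommRing R] [CommRing S]

/-- Matrices of size seven. -/
abbrev M7 (R : Type) : Type := Matrix (Fin 7) (Fin 7) R

/-- The antidiagonal matrix. -/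
def J7 (R : Type) [CommRing R] : M7 R := Matrix.of fun i j => if j = i.rev then 1 else 0

theorem J7_sq : J7 R * J7 R = 1 := by
  ext i j
  rw [Matrix.mul_apply, Finset.sum_eq_single i.rev]
  · by_cases h : i = j
    · subst h
      simp [J7]
    · simp [J7, h, Ne.symm h]
  · intro b _ hb
    simp [J7, hb]
  · intro h
    exact absurd (Finset.mem_univ _) h

theorem J7_star : (J7 (E7 R))ᴴ = J7 (E7 R) := by
  refine Matrix.ext fun i j => ?_
  rw [Matrix.conjTranspose_apply]
  by_cases h : i = j.rev
  · subst h
    simp [J7]
  · have h' : ¬ j = i.rev := fun h2 => h (by rw [h2, Fin.rev_rev])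
    simp [J7, h, h']

/-- The unitary group of the Hermitian form with the antidiagonal matrix `J7` over `R[√-7]`. -/
def U7 (R : Type) [CommRing R] : Type := {g : M7 (E7 R) // gᴴ * J7 (E7 R) * g = J7 (E7 R)}

namespace U7

/-- The matrix of an element of the unitary group. -/
def mat (g : U7 R) : M7 (E7 R) := g.1

theorem mat_injective : Function.Injective (mat : U7 R → M7 (E7 R)) := Subtype.val_injective

@[ext] theorem ext {g h : U7 R} (H : g.mat = h.mat) : g = h := mat_injective H

theorem star_mul_mat (g : U7 R) : g.matᴴ * J7 (E7 R) * g.mat = J7 (E7 R) := g.2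

theorem inv_mul_aux (g : U7 R) : (J7 (E7 R) * g.matᴴ * J7 (E7 R)) * g.mat = 1 := by
  rw [Matrix.mul_assoc (J7 (E7 R)), Matrix.mul_assoc (J7 (E7 R)), star_mul_mat, J7_sq]

theorem mul_inv_aux (g : U7 R) : g.mat * (J7 (E7 R) * g.matᴴ * J7 (E7 R)) = 1 :=
  mul_eq_one_comm.1 g.inv_mul_aux

instance : Mul (U7 R) := ⟨fun g h => ⟨g.mat * h.mat, by
  rw [Matrix.conjTranspose_mul, Matrix.mul_assoc (h.mat)ᴴ, Matrix.mul_assoc (h.mat)ᴴ,
    ← Matrix.mul_assoc (g.matᴴ * J7 (E7 R)), star_mul_mat, ← Matrix.mul_assoc, star_mul_mat]⟩⟩

instance : One (U7 R) := ⟨⟨1, by rw [Matrix.conjTranspose_one, Matrix.one_mul, Matrix.mul_one]⟩⟩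

instance : Inv (U7 R) := ⟨fun g => ⟨J7 (E7 R) * g.matᴴ * J7 (E7 R), by
  have h : (J7 (E7 R) * g.matᴴ * J7 (E7 R))ᴴ = J7 (E7 R) * g.mat * J7 (E7 R) := by
    rw [Matrix.conjTranspose_mul, Matrix.conjTranspose_mul, J7_star,
      Matrix.conjTranspose_conjTranspose, Matrix.mul_assoc]
  rw [h, Matrix.mul_assoc _ (J7 (E7 R)) (J7 (E7 R)), J7_sq, Matrix.mul_one, Matrix.mul_assoc,
    mul_inv_aux, Matrix.mul_one]⟩⟩

@[simp] theorem mat_mul (g h : U7 R) : (g * h).mat = g.mat * h.mat := rfl

@[simp] theorem mat_one : (1 : U7 R).mat = 1 := rfl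

theorem mat_inv (g : U7 R) : (g⁻¹).mat = J7 (E7 R) * g.matᴴ * J7 (E7 R) := rfl

instance : Group (U7 R) where
  mul_assoc a b c := U7.ext (Matrix.mul_assoc _ _ _)
  one_mul a := U7.ext (Matrix.one_mul _)
  mul_one a := U7.ext (Matrix.mul_one _)
  inv_mul_cancel a := U7.ext a.inv_mul_aux

/-- The homomorphism of unitary groups of a ring homomorphism. -/
def map (f : R →+* S) : U7 R →* U7 S where
  toFun g := ⟨g.mat.map (E7.map f), by
    have h := congrArg (fun M : M7 (E7 R) => M.map (E7.map f)) g.star_mul_mat
    have hJ : (J7 (E7 R)).map (E7.map f) = J7 (E7 S) := by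
      refine Matrix.ext fun i j => ?_
      by_cases h : j = i.rev
      · simp [J7, h]
      · simp [J7, h]
    have hs : (g.mat.map (E7.map f))ᴴ = (g.matᴴ).map (E7.map f) := by
      refine Matrix.ext fun i j => ?_
      simp [Matrix.conjTranspose_apply, E7.map_star]
    simp only [Matrix.map_mul, hJ] at h
    rw [hs]
    exact h⟩
  map_one' := U7.ext (by
    show (1 : M7 (E7 R)).map (E7.map f) = 1
    rw [Matrix.map_one _ (map_zero _) (map_one _)])
  map_mul' g h := U7.ext (by
    show (g.mat * h.mat).map (E7.map f) = g.mat.map (E7.map f) * h.mat.map (E7.map f)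
    rw [Matrix.map_mul])

@[simp] theorem mat_map (f : R →+* S) (g : U7 R) : (map f g).mat = g.mat.map (E7.map f) := rfl

section top

variable [TopologicalSpace R]

instance : TopologicalSpace (U7 R) := TopologicalSpace.induced mat inferInstance

theorem isEmbedding_mat : IsEmbedding (mat : U7 R → M7 (E7 R)) := ⟨⟨rfl⟩, mat_injective⟩

theorem continuous_mat : Continuous (mat : U7 R → M7 (E7 R)) := isEmbedding_mat.continuous

instance [IsTopologicalRing R] : IsTopologicalGroup (U7 R) where
  continuous_mul := isEmbedding_mat.continuous_iff.2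
    ((continuous_mat.comp continuous_fst).matrix_mul (continuous_mat.comp continuous_snd))
  continuous_inv := isEmbedding_mat.continuous_iff.2
    ((continuous_const.matrix_mul (continuous_mat.matrix_conjTranspose)).matrix_mul
      continuous_const)

end top

end U7

end group

/-! ### The adelic group, the group of rational points and the quotient -/

/-- The group of rational points as a subgroup of the adelic group. -/
noncomputable def Gam : Subgroup (U7 AQ) := (U7.map ratAQ).range

/-- The space `G(𝔸) / G(ℚ)`. It is `G(ℚ) \ G(𝔸)` up to the inversion `g ↦ g⁻¹`. -/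
abbrev GX : Type := U7 AQ ⧸ Gam

end Pool.Agent.MPabcfcd
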