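import Pool.Agent.Lib.MP_abcfcd_nt.X.LX
import Pool.Agent.Lib.MP_abcfcd_nt.L.LL
import Pool.Agent.Lib.MP_abcfcd_nt.N.Cyc

/-!
# Exclusion of the larger types

PROOF. Let `v` be continuous with `v (l⁻¹ • x) = chi l * v x` for `l ∈ LL`, `t` of type `(7)`,
`(6,1)` or
`(5,2)`, and suppose `t.coef ν v g ≠ 0`. Let `g₇ = U7.map (evp p7) g`. By `local_excl` there is
`u₇ ∈ V_X(ℚ_7)` with `l₇ = g₇⁻¹ u₇ g₇ ∈ JJ` and the number `y + trB l₇ / 7` not integral, `y` the
real
part of the trace. Let `u ∈ U7 AQ` have the component `u₇` at seven and `1` elsewhere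
(`exists_at7`).
`u ∈ t.V`: `u.mat - 1 ∈ fil (mapM ratAQ t.h) 2`: use `exists_diag`, `Dg.map` and `mem_fil_conj`
over `AQ`
and over `ℚ_7`: an entry of `P' (u - 1) P` vanishes if all its components vanish; the components at
the
other places are those of `0`. `l = g⁻¹ u g` has the component `l₇` at seven and `1` elsewhere, so
`l ∈ LL`. By `coef_trans` with `c = chi l`: `t.ch u = chi l`. But `t.ch u = psi x` with the adele
`x`
which is `y` at seven and `0` elsewhere, `x = at7 y`; `chi l = psi (at7 (-(trB l₇)/7))`. So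
`psi (at7 (y + trB l₇ / 7)) = 1` (`psi_add`, `at7_add`, `psi_neg`) and `psi_at7` gives a
contradiction.
-/

set_option autoImplicit false

open Matrix MeasureTheory Topology
open scoped ENNReal NNReal ComplexConjugate RestrictedProduct

namespace Pool.Agent.MPabcfcd

private theorem ex_mul {R S : Type} [CommRing R] [CommRing S] (f : R →+* S) (A B : M7 (E7 R)) :
    mapM f (A * B) = mapM f A * mapM f B := by
  simp only [mapM]
  rw [Matrix.map_mul]

private theorem ex_sub {R S : Type} [CommRing R] [CommRing S] (f : R →+* S) (u : U7 R) :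
    mapM f (u.mat - 1) = (U7.map f u).mat - 1 := by
  refine Matrix.ext fun i j => ?_
  show E7.map f (u.mat i j - (1 : M7 (E7 R)) i j) = E7.map f (u.mat i j) - (1 : M7 (E7 S)) i j
  rw [map_sub]
  by_cases h : i = j
  · subst h
    rw [Matrix.one_apply_eq, Matrix.one_apply_eq, map_one]
  · rw [Matrix.one_apply_ne h, Matrix.one_apply_ne h, map_zero]

private theorem ex_trace {R S : Type} [CommRing R] [CommRing S] (f : R →+* S) (A : M7 (E7 R)) :
    f (Matrix.trace A).re = (Matrix.trace (mapM f A)).re := by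
  have h : E7.map f (Matrix.trace A) = Matrix.trace (mapM f A) := by
    rw [Matrix.trace, Matrix.trace, map_sum]
    rfl
  rw [← h]
  rfl

private theorem ex_inf (A : M7 (E7 ℚ)) :
    mapM infAQ (mapM ratAQ A) = mapM (Rat.castHom ℝ) A := rfl

private theorem ex_evp (p : Nat.Primes) (A : M7 (E7 ℚ)) :
    mapM (evp p) (mapM ratAQ A) = mapM (Rat.castHom ℚ_[p]) A := rfl

private theorem ex_zero {z : E7 AQ} (h1 : E7.map infAQ z = 0)
    (h2 : ∀ p, E7.map (evp p) z = 0) : z = 0 := by
  have aux : ∀ x : AQ, infAQ x = 0 → (∀ p, evp p x = 0) → x = 0 := by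
    intro x h3 h4
    refine Prod.ext h3 ?_
    ext p
    exact h4 p
  refine QuadraticAlgebra.ext ?_ ?_
  · exact aux _ (congrArg QuadraticAlgebra.re h1) fun p => congrArg QuadraticAlgebra.re (h2 p)
  · exact aux _ (congrArg QuadraticAlgebra.im h1) fun p => congrArg QuadraticAlgebra.im (h2 p)

theorem excl (t : Sl2) (p : Nat.Partition 7) (hp : HasType p t.X)
    (h : p.parts = {7} ∨ p.parts = {6, 1} ∨ p.parts = {5, 2}) {ν : Measure (t.V ⧸ t.VQ)}
    (hν : InvProb ν) {v : GX → ℂ} (hv : ∀ l ∈ LL, ∀ x, v (l⁻¹ • x) = (chi l : ℂ) * v x)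
    (g : U7 AQ) : t.coef ν v g = 0 := by
  by_contra hne
  obtain ⟨u7, hu7, hJ, hn⟩ := local_excl t p hp h (U7.map (evp p7) g)
  obtain ⟨u, hui, hu7', huo⟩ := exists_at7 u7
  obtain ⟨a, P, P', hD⟩ := exists_diag t
  -- `u` is in the unipotent group
  have hu : u ∈ t.V := by
    show u.mat - 1 ∈ fil (mapM ratAQ t.h) 2
    rw [mem_fil_conj ratAQ (hD.map ratAQ) 2]
    intro i j hij
    have h7 := (mem_fil_conj (Rat.castHom ℚ_[p7]) (hD.map (Rat.castHom ℚ_[p7])) 2 _).1 hu7 i j hij
    have hm : ∀ {S : Type} [CommRing S] (f : AQ →+* S),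
        E7.map f ((mapM ratAQ P' * (u.mat - 1) * mapM ratAQ P) i j) =
          (mapM f (mapM ratAQ P') * ((U7.map f u).mat - 1) * mapM f (mapM ratAQ P)) i j := by
      intro S _ f
      rw [← ex_sub, ← ex_mul, ← ex_mul]
      rfl
    have h0 : ∀ {S : Type} [CommRing S] (f : AQ →+* S), U7.map f u = 1 →
        E7.map f ((mapM ratAQ P' * (u.mat - 1) * mapM ratAQ P) i j) = 0 := by
      intro S _ f hf
      rw [hm, hf, U7.mat_one, sub_self, Matrix.mul_zero, Matrix.zero_mul]
      rfl
    refine ex_zero (h0 _ hui) fun q => ?_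
    by_cases hq : q = p7
    · subst hq
      rw [hm, hu7', ex_evp, ex_evp]
      exact h7
    · exact h0 _ (huo q hq)
  -- `l = g⁻¹ u g` is in `L`
  have hl7 : U7.map (evp p7) (g⁻¹ * u * g) =
      (U7.map (evp p7) g)⁻¹ * u7 * U7.map (evp p7) g := by
    rw [map_mul, map_mul, map_inv, hu7']
  have hl : g⁻¹ * u * g ∈ LL := by
    refine ⟨?_, fun q => ?_, ?_⟩
    · rw [map_mul, map_mul, map_inv, hui, mul_one, inv_mul_cancel]
    · by_cases hq : q = p7
      · subst hq
        rw [hl7]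
        exact hJ.1
      · rw [map_mul, map_mul, map_inv, huo q hq, mul_one, inv_mul_cancel]
        exact one_mem_KZ q
    · rw [hl7]
      exact hJ
  have hch := coef_trans t hν g u hu (chi (g⁻¹ * u * g) : ℂ) (Circle.coe_ne_zero _)
    (hv _ hl) hne
  have hch' : t.ch u = chi (g⁻¹ * u * g) := Circle.ext hch
  -- the character of `u`
  set y : ℚ_[p7] := (Matrix.trace (mapM (Rat.castHom ℚ_[p7]) t.X * (u7.mat - 1))).re with hy
  set x : AQ := (Matrix.trace (mapM ratAQ t.X * (u.mat - 1))).re with hx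
  have hc : ∀ {S : Type} [CommRing S] (f : AQ →+* S),
      f x = (Matrix.trace (mapM f (mapM ratAQ t.X) * ((U7.map f u).mat - 1))).re := by
    intro S _ f
    rw [hx, ex_trace, ex_mul, ex_sub]
  have hc0 : ∀ {S : Type} [CommRing S] (f : AQ →+* S), U7.map f u = 1 → f x = 0 := by
    intro S _ f hf
    rw [hc, hf, U7.mat_one, sub_self, Matrix.mul_zero, Matrix.trace_zero]
    rfl
  have hxy : x = at7 y := by
    refine Prod.ext ?_ ?_
    · rw [at7_fst]
      exact hc0 infAQ hui
    · ext q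
      by_cases hq : q = p7
      · subst hq
        rw [at7_same]
        have h3 := hc (evp p7)
        rw [hu7', ex_evp] at h3
        exact h3
      · rw [at7_ne _ hq]
        exact hc0 (evp q) (huo q hq)
  have h1 : psi (at7 y) = psi (at7 (-(trB ((U7.map (evp p7) g)⁻¹ * u7 *
      U7.map (evp p7) g)) / 7)) := by
    rw [← hxy, ← hl7]
    exact hch'
  apply hn
  rw [← psi_at7, at7_add, psi_add, h1, ← psi_add, ← at7_add]
  have h2 : -(trB ((U7.map (evp p7) g)⁻¹ * u7 * U7.map (evp p7) g)) / 7 +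
      trB ((U7.map (evp p7) g)⁻¹ * u7 * U7.map (evp p7) g) / 7 = 0 := by ring
  rw [h2, psi_at7, norm_zero]
  exact zero_le_one

end Pool.Agent.MPabcfcd
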