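import Pool.Agent.Lib.MP_abcfcd_nt.Lgrp
import Pool.Agent.Lib.MP_abcfcd_nt.W.Basic
import Pool.Agent.Lib.MP_abcfcd_nt.Q.Uni
import Pool.Agent.Lib.MP_abcfcd_nt.Q.Weil
import Pool.Agent.Lib.MP_abcfcd_nt.S.Cusp

/-!
# What the main theorem needs from the adelic group and from reduction theory

The topological instances for `U7 AQ` and `GX` are in `Q.Grp`.
-/

set_option autoImplicit false

open MeasureTheory Topology
open scoped ENNReal NNReal ComplexConjugate

namespace Pool.Agent.MPabcfcd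

theorem dis_Gam : Har.Dis Gam := dis_of_nhds Gam exists_nhds_Gam

/-- The adelic group is unimodular. -/
theorem exists_haar : ∃ μ : Measure (U7 AQ), μ.IsHaarMeasure ∧ μ.IsMulRightInvariant ∧
    μ.IsInvInvariant := by
  have h := right_invariant (G := U7 AQ) modular_eq_one Measure.haar
  exact ⟨Measure.haar, inferInstance, h, isInvInvariant _⟩

/-- The invariant measure on the quotient. -/
theorem exists_weil (μ : Measure (U7 AQ)) [μ.IsHaarMeasure] [μ.IsMulRightInvariant] :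
    ∃ m : Measure GX, Har.Weil μ Gam m ∧ m ≠ 0 ∧ IsFiniteMeasureOnCompacts m ∧
      SMulInvariantMeasure (U7 AQ) GX m :=
  weil_exists Gam exists_nhds_Gam μ

/-! ### Auxiliary lemmas -/

private theorem Exp_root {ζ : ℂ} (h7 : ζ ^ 7 = 1) (h1 : ζ ≠ 1) : 1 / 2 ≤ ‖ζ - 1‖ := by
  have hn : ‖ζ‖ = 1 := by
    have h := congrArg (fun z => ‖z‖) h7
    simp only [norm_pow, norm_one] at h
    exact (pow_eq_one_iff_of_nonneg (norm_nonneg ζ) (by norm_num)).1 h
  have hsum : 1 + ζ + ζ ^ 2 + ζ ^ 3 + ζ ^ 4 + ζ ^ 5 + ζ ^ 6 = 0 := by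
    have h : (ζ - 1) * (1 + ζ + ζ ^ 2 + ζ ^ 3 + ζ ^ 4 + ζ ^ 5 + ζ ^ 6) = 0 := by
      have h2 : (ζ - 1) * (1 + ζ + ζ ^ 2 + ζ ^ 3 + ζ ^ 4 + ζ ^ 5 + ζ ^ 6) = ζ ^ 7 - 1 := by ring
      rw [h2, h7, sub_self]
    rcases mul_eq_zero.1 h with h | h
    · exact absurd (sub_eq_zero.1 h) h1
    · exact h
  have h2 : ‖ζ ^ 2 - 1‖ ≤ 2 * ‖ζ - 1‖ := by
    have h : ζ ^ 2 - 1 = (ζ + 1) * (ζ - 1) := by ring
    rw [h, norm_mul]
    refine mul_le_mul_of_nonneg_right ?_ (norm_nonneg _)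
    refine (norm_add_le _ _).trans ?_
    rw [hn, norm_one]
    norm_num
  have h3 : ‖ζ ^ 3 - 1‖ ≤ 3 * ‖ζ - 1‖ := by
    have h : ζ ^ 3 - 1 = ζ * (ζ ^ 2 - 1) + (ζ - 1) := by ring
    rw [h]
    refine (norm_add_le _ _).trans ?_
    rw [norm_mul, hn]
    linarith
  have h4 : ‖ζ ^ 4 - 1‖ = ‖ζ ^ 3 - 1‖ := by
    have h : ζ ^ 3 - 1 = -(ζ ^ 3 * (ζ ^ 4 - 1)) := by
      linear_combination h7
    rw [h, norm_neg, norm_mul, norm_pow, hn, one_pow, one_mul]
  have h5 : ‖ζ ^ 5 - 1‖ = ‖ζ ^ 2 - 1‖ := by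
    have h : ζ ^ 2 - 1 = -(ζ ^ 2 * (ζ ^ 5 - 1)) := by
      linear_combination h7
    rw [h, norm_neg, norm_mul, norm_pow, hn, one_pow, one_mul]
  have h6 : ‖ζ ^ 6 - 1‖ = ‖ζ - 1‖ := by
    have h : ζ - 1 = -(ζ * (ζ ^ 6 - 1)) := by
      linear_combination h7
    rw [h, norm_neg, norm_mul, hn, one_mul]
  have h8 : (7 : ℂ) = -((ζ - 1) + (ζ ^ 2 - 1) + (ζ ^ 3 - 1) + (ζ ^ 4 - 1) + (ζ ^ 5 - 1) +
      (ζ ^ 6 - 1)) := by
    linear_combination hsum
  have h9 : (7 : ℝ) ≤ ‖ζ - 1‖ + ‖ζ ^ 2 - 1‖ + ‖ζ ^ 3 - 1‖ + ‖ζ ^ 4 - 1‖ + ‖ζ ^ 5 - 1‖ +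
      ‖ζ ^ 6 - 1‖ := by
    have h10 : ‖(7 : ℂ)‖ = 7 := by simp
    rw [← h10, h8, norm_neg]
    refine (norm_add_le _ _).trans (add_le_add_left ?_ _)
    refine (norm_add_le _ _).trans (add_le_add_left ?_ _)
    refine (norm_add_le _ _).trans (add_le_add_left ?_ _)
    refine (norm_add_le _ _).trans (add_le_add_left ?_ _)
    exact norm_add_le _ _
  linarith

private theorem Exp_seven : ‖(7 : ℚ_[p7])‖ = 1 / 7 := by
  have h := Padic.norm_p (p := (p7 : ℕ))
  have h1 : (((p7 : ℕ) : ℚ_[p7])) = 7 := by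
    have h0 : ((p7 : ℕ)) = 7 := rfl
    exact_mod_cast congrArg (fun n : ℕ => (n : ℚ_[p7])) h0
  have h2 : (((p7 : ℕ) : ℝ)) = 7 := by simp [p7]
  rw [h1, h2] at h
  rw [h, one_div]

private theorem Exp_div (x : ℚ_[p7]) : ‖x / 7‖ ≤ 1 ↔ ‖x‖ ≤ 1 / 7 := by
  rw [norm_div, Exp_seven, div_le_iff₀ (by norm_num), one_mul]

private theorem Exp_ratPart (x : Af) (p : Nat.Primes) :
    ‖x p - ((ratPart x : ℚ) : ℚ_[p])‖ ≤ 1 := by
  have h : ∃ q : ℚ, ∀ p : Nat.Primes,
      x p - (q : ℚ_[p]) ∈ (PadicInt.subring p : Subring ℚ_[p]) := by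
    obtain ⟨q, hq⟩ := strong_approx x 1 one_pos
    refine ⟨q, fun p => ?_⟩
    have h1 := hq p
    rw [Nat.cast_one, norm_one] at h1
    exact h1
  have h2 : ratPart x = h.choose := by
    unfold ratPart
    rw [dif_pos h]
  rw [h2]
  exact h.choose_spec p

private theorem Exp_fin {x y : U7 AQ} (h : ∀ p, U7.map (evp p) x = U7.map (evp p) y)
    (i j : Fin 7) : (x.mat i j).re.2 = (y.mat i j).re.2 ∧
      (x.mat i j).im.2 = (y.mat i j).im.2 := by
  constructor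
  · refine RestrictedProduct.ext _ _ fun p => ?_
    exact congrArg (fun g : U7 ℚ_[p] => (g.mat i j).re) (h p)
  · refine RestrictedProduct.ext _ _ fun p => ?_
    exact congrArg (fun g : U7 ℚ_[p] => (g.mat i j).im) (h p)

private theorem Exp_cont {f : U7 ℝ →* U7 AQ} (h1 : ∀ g, U7.map infAQ (f g) = g)
    (h2 : ∀ g p, U7.map (evp p) (f g) = 1) : Continuous f := by
  refine U7.isEmbedding_mat.continuous_iff.2 (continuous_matrix fun i j => ?_)
  have h3 : ∀ g : U7 ℝ, (f g).mat i j =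
      ⟨((g.mat i j).re, (((1 : U7 AQ).mat i j).re.2)),
        ((g.mat i j).im, (((1 : U7 AQ).mat i j).im.2))⟩ := by
    intro g
    have h4 : ∀ p, U7.map (evp p) (f g) = U7.map (evp p) 1 := fun p => by
      rw [h2, map_one]
    have h5 := Exp_fin h4 i j
    have h6 := congrArg (fun g : U7 ℝ => (g.mat i j).re) (h1 g)
    have h7 := congrArg (fun g : U7 ℝ => (g.mat i j).im) (h1 g)
    exact QuadraticAlgebra.ext (Prod.ext h6 h5.1) (Prod.ext h7 h5.2)
  have h4 : (fun g : U7 ℝ => (f g).mat i j) = fun g =>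
      ⟨((g.mat i j).re, (((1 : U7 AQ).mat i j).re.2)),
        ((g.mat i j).im, (((1 : U7 AQ).mat i j).im.2))⟩ := funext h3
  have h5 : Continuous fun g : U7 ℝ => g.mat i j :=
    (continuous_apply_apply i j).comp U7.continuous_mat
  change Continuous fun g : U7 ℝ => (f g).mat i j
  rw [h4]
  exact E7.continuous_mk ((E7.continuous_re.comp h5).prodMk continuous_const)
    ((E7.continuous_im.comp h5).prodMk continuous_const)

/-- The character `chi` takes values in the seventh roots of unity; it is `1` if and only if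
`trB / 7` is integral. -/
theorem norm_chi_sub_one (l : U7 AQ) (h : ‖trB (U7.map (evp p7) l)‖ ≤ 1)
    (h1 : ¬ ‖trB (U7.map (evp p7) l) / 7‖ ≤ 1) : 1 / 2 ≤ ‖(chi l : ℂ) - 1‖ := by
  classical
  obtain ⟨t, ht⟩ : ∃ t, t = trB (U7.map (evp p7) l) := ⟨_, rfl⟩
  rw [← ht] at h h1
  obtain ⟨a, ha⟩ : ∃ a : AQ, a = at7 (-t / 7) := ⟨_, rfl⟩
  have ha1 : a.1 = 0 := by rw [ha]; rfl
  have ha7 : a.2 p7 = -t / 7 := by
    rw [ha]
    unfold at7
    exact RestrictedProduct.single_eq_same _ _ _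
  have hap : ∀ p : Nat.Primes, p ≠ p7 → a.2 p = 0 := by
    intro p hp
    rw [ha]
    unfold at7
    exact RestrictedProduct.single_eq_of_ne _ _ hp
  obtain ⟨q, hq⟩ : ∃ q : ℚ, q = ratPart a.2 := ⟨_, rfl⟩
  have hqp : ∀ p : Nat.Primes, ‖a.2 p - (q : ℚ_[p])‖ ≤ 1 := by
    intro p
    rw [hq]
    exact Exp_ratPart a.2 p
  -- `7 q` is an integer
  have hint : ∀ p : Nat.Primes, ‖((7 * q : ℚ) : ℚ_[p])‖ ≤ 1 := by
    intro p
    have h7 : ‖(7 : ℚ_[p])‖ ≤ 1 := by
      have := Padic.norm_int_le_one (p := p) (7 : ℤ)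
      simpa using this
    rw [Rat.cast_mul, Rat.cast_ofNat]
    by_cases hp : p = p7
    · subst hp
      have h2 : (7 : ℚ_[p7]) * (q : ℚ_[p7]) = -(7 * (a.2 p7 - (q : ℚ_[p7]))) + -t := by
        rw [ha7]
        have h3 : (7 : ℚ_[p7]) ≠ 0 := by
          intro h4
          have h5 := Exp_seven
          rw [h4, norm_zero] at h5
          norm_num at h5
        field_simp
        ring
      rw [h2]
      refine (IsUltrametricDist.norm_add_le_max _ _).trans (max_le ?_ ?_)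
      · rw [norm_neg, norm_mul]
        exact mul_le_one₀ h7 (norm_nonneg _) (hqp p7)
      · rw [norm_neg]
        exact h
    · have h2 := hqp p
      rw [hap p hp, zero_sub, norm_neg] at h2
      rw [norm_mul]
      exact mul_le_one₀ h7 (norm_nonneg _) h2
  obtain ⟨n, hn⟩ := int_of_norm_le _ hint
  have hchi : (chi l : ℂ) = Complex.exp ((2 * Real.pi * (-(q : ℝ)) : ℝ) * Complex.I) := by
    have h2 : chi l = psi a := by
      rw [ha, ht]
      rfl
    rw [h2]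
    unfold psi
    rw [Real.fourierChar_apply, ha1, zero_sub, ← hq]
  refine Exp_root ?_ ?_
  · rw [hchi, ← Complex.exp_nat_mul, Complex.exp_eq_one_iff]
    refine ⟨-n, ?_⟩
    have h2 : (n : ℂ) = 7 * (q : ℂ) := by exact_mod_cast congrArg (fun r : ℚ => (r : ℂ)) hn
    push_cast
    rw [h2]
    ring
  · intro h2
    rw [hchi, Complex.exp_eq_one_iff] at h2
    obtain ⟨k, hk⟩ := h2
    have h3 : (q : ℂ) = -(k : ℂ) := by
      have h4 : (2 * (Real.pi : ℂ) * Complex.I) ≠ 0 := by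
        simp [Real.pi_ne_zero, Complex.I_ne_zero]
      have h5 : (2 * (Real.pi : ℂ) * Complex.I) * (q : ℂ) =
          (2 * (Real.pi : ℂ) * Complex.I) * (-(k : ℂ)) := by
        push_cast at hk
        linear_combination (-1) * hk
      exact mul_left_cancel₀ h4 h5
    have h4 : q = ((-k : ℤ) : ℚ) := by
      have h5 : (q : ℂ) = (((-k : ℤ) : ℚ) : ℂ) := by
        rw [h3]
        push_cast
        ring
      exact_mod_cast h5
    apply h1
    have h5 := hqp p7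
    rw [ha7, h4] at h5
    have h6 : t / 7 = -((-t / 7 - (((-k : ℤ) : ℚ) : ℚ_[p7])) + ((-k : ℤ) : ℚ_[p7])) := by
      push_cast
      ring
    rw [h6, norm_neg]
    exact (IsUltrametricDist.norm_add_le_max _ _).trans
      (max_le h5 (Padic.norm_int_le_one _))

theorem norm_trB_le {g : U7 ℚ_[p7]} (h : g ∈ KZ p7) : ‖trB g‖ ≤ 1 := by
  have h1 : trB g ∈ (PadicInt.subring p7 : Subring ℚ_[p7]) := by
    unfold trB
    refine Subring.sum_mem _ fun i _ => Subring.sum_mem _ fun j _ => ?_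
    exact Subring.mul_mem _ (intCast_mem _ _) (h j i).2
  exact h1

/-- The fixed points of products `u l` with `u` near `1` and `l ∈ L`, `chi l ≠ 1`. For a
neighbourhood `U` of `1` in `U7 AQ` let `U'` be the set of the `v : U7 ℝ` whose image under
`exists_embInf` is in `U` (this embedding is continuous), take the compact set of `cusp_lemma` for
`U'` and its image in `GX`. If `x = g Γ` is not in the image then `g γ g⁻¹ = u l` with the image `u`
of the component at infinity, and `l = u⁻¹ g γ g⁻¹ ∈ LL`. -/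
theorem cusp : Har.Cusp GX LL (fun l => (chi l : ℂ)) := by
  obtain ⟨f, hf1, hf2⟩ := exists_embInf
  refine ⟨1 / 2, by norm_num, fun U hU => ?_⟩
  have hU' : f ⁻¹' U ∈ 𝓝 (1 : U7 ℝ) := by
    refine (Exp_cont hf1 hf2).continuousAt.preimage_mem_nhds ?_
    rw [map_one]
    exact hU
  obtain ⟨C, hC, hC2⟩ := cusp_lemma hU'
  refine ⟨(QuotientGroup.mk : U7 AQ → GX) '' C, hC.image continuous_quotient_mk', ?_⟩
  intro x hx
  obtain ⟨g, rfl⟩ := QuotientGroup.mk_surjective x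
  have hg : ∀ γ ∈ Gam, g * γ ∉ C := by
    intro γ hγ hmem
    exact hx ⟨g * γ, hmem, QuotientGroup.mk_mul_of_mem g hγ⟩
  obtain ⟨γ, hγ, hw1, hw2, hw3, hw4⟩ := hC2 g hg
  obtain ⟨w, hw⟩ : ∃ w, w = g * γ * g⁻¹ := ⟨_, rfl⟩
  rw [← hw] at hw1 hw3 hw4
  have hw2' : ∀ p, U7.map (evp p) w ∈ KZ p := by
    intro p
    rw [hw]
    exact hw2 p
  refine ⟨f (U7.map infAQ w), hw1, (f (U7.map infAQ w))⁻¹ * w, ⟨?_, ?_, ?_⟩, ?_, ?_⟩
  · rw [map_mul, map_inv, hf1, inv_mul_cancel]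
  · intro p
    rw [map_mul, map_inv, hf2, inv_one, one_mul]
    exact hw2' p
  · rw [map_mul, map_inv, hf2, inv_one, one_mul]
    exact hw3
  · rw [mul_inv_cancel_left]
    change (QuotientGroup.mk (w * g) : GX) = QuotientGroup.mk g
    rw [hw, inv_mul_cancel_right]
    exact QuotientGroup.mk_mul_of_mem g hγ
  · refine norm_chi_sub_one _ ?_ ?_
    · rw [map_mul, map_inv, hf2, inv_one, one_mul]
      exact norm_trB_le (hw2' p7)
    · rw [map_mul, map_inv, hf2, inv_one, one_mul]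
      exact hw4

end Pool.Agent.MPabcfcd
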