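import Pool.Agent.Lib.MP_abcfcd_nt.Auto

/-!
# The compact group `L`, its character `chi`, and the matrix `B`

At the prime `7` the group is `J = {P + Q √-7 : P ≡ 1 mod 7}` and the character is
`exp (2 π i tr (B Q) / 7)`.
-/

set_option autoImplicit false

open Matrix Topology MeasureTheory
open scoped RestrictedProduct

namespace Pool.Agent.MPabcfcd

/-- The prime seven. -/
def p7 : Nat.Primes := ⟨7, by norm_num⟩

/-- The component of an adele at a prime. -/
noncomputable def evp (p : Nat.Primes) : AQ →+* ℚ_[p] :=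
  (RestrictedProduct.evalRingHom (fun p : Nat.Primes => ℚ_[p]) p).comp finAQ

/-- The integral unitary matrices at a prime. -/
def KZ (p : Nat.Primes) : Set (U7 ℚ_[p]) :=
  {g | ∀ i j, ‖(g.mat i j).re‖ ≤ 1 ∧ ‖(g.mat i j).im‖ ≤ 1}

/-- The matrix `B`. It is self-adjoint: `B i j = B (rev j) (rev i)`. Modulo seven it has the seven
eigenvalues `0, ..., 6`. -/
def Bm : Matrix (Fin 7) (Fin 7) ℤ :=
  !![3, 1, 6, 0, 0, 0, 0;
     2, 5, 1, 5, 0, 0, 0;
     0, 6, 6, 6, 3, 0, 0;
     0, 2, 5, 0, 6, 5, 0;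
     0, 4, 3, 5, 6, 1, 6;
     0, 0, 4, 2, 6, 5, 1;
     0, 0, 0, 0, 0, 2, 3]

/-- The group `J` at the prime seven: `P + Q √-7` with integral `P ≡ 1 mod 7` and integral `Q`. -/
def JJ : Set (U7 ℚ_[p7]) :=
  {g | g ∈ KZ p7 ∧ ∀ i j, ‖((g.mat - 1) i j).re‖ ≤ 1 / 7}

/-- The number `tr (B Q)` of the matrix `P + Q √-7`. -/
noncomputable def trB (g : U7 ℚ_[p7]) : ℚ_[p7] := ∑ i, ∑ j, (Bm i j : ℚ_[p7]) * (g.mat j i).im

/-- The compact group `L`: trivial at infinity, integral at all primes, in `J` at seven. -/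
def LL : Set (U7 AQ) :=
  {l | U7.map infAQ l = 1 ∧ (∀ p, U7.map (evp p) l ∈ KZ p) ∧ U7.map (evp p7) l ∈ JJ}

open Classical in
/-- The adele with the component `x` at seven and `0` at the other places. -/
noncomputable def at7 (x : ℚ_[p7]) : AQ :=
  (0, RestrictedProduct.single (fun p : Nat.Primes => (PadicInt.subring p : Subring ℚ_[p])) p7 x)

/-- The character of `L`. -/
noncomputable def chi (l : U7 AQ) : Circle := psi (at7 (-(trB (U7.map (evp p7) l)) / 7))

end Pool.Agent.MPabcfcd
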