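import Pool.Agent.Lib.MP_abcfcd_nt.R.Ker
import Pool.Agent.Lib.MP_abcfcd_nt.Excl
import Pool.Agent.Lib.MP_abcfcd_nt.T.Type
import Pool.Agent.Lib.MP_abcfcd_nt.W.Main

/-!
# The main theorem

PROOF. `μ` from `exists_haar`, `m` from `exists_weil`; `U₀` from `exists_U`, `b` from `exists_b`,
`f1 = bump b`; `ν1`, `ν2` from `exists_invProb` (`dis_VQ`); `main_quot` with `c1 = t2.cyc ν2`,
`c2 = t1.cyc ν1`, `L = LL` (`isCompact_LL`), `χ = chi`, `cusp`, `bumps_LL`, `continuous_bump`,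
`supp_bump`, `bump_right`, `exists_U`, `InvProb.openPos`. It gives `π` and `v`. `IsIrr m π`:
`IsInv` and
`IsSub` are the same (`tr_eq_of`, `tr_coe`). `HasCoef m π p43`: `t2`, `type_t2`, the function `F`
for `c1`,
`coef_eq`. `HasCoef m π p511`: `t1`, `type_t1`, `c2`. If `Dom p' p`, `p' ≠ p` for `p = p511` or
`p43`, then
`p'` is one of three (`above`); if `HasCoef m π p'` then there are `t`, `F`, `ν`, `g` with
`t.coef ν F g ≠ 0`, so `(t.cyc ν).per v g' ≠ 0` for some `g'` by the last property of `main_quot`,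
which
contradicts `excl`.
-/

set_option autoImplicit false

open Matrix MeasureTheory Topology
open scoped ENNReal NNReal ComplexConjugate RestrictedProduct

namespace Pool.Agent.MPabcfcd

private theorem main_sub {m : Measure GX} [IsFiniteMeasureOnCompacts m]
    [SMulInvariantMeasure (U7 AQ) GX m]
    {σ : Submodule ℂ (Lp ℂ 2 m)} : IsSub m σ ↔ Har.IsInv (U7 AQ) m σ := by
  constructor
  · intro h
    exact ⟨h.closed, fun g φ hφ => h.inv g φ _ hφ (Har.tr_coe g φ)⟩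
  · intro h
    refine ⟨h.closed, fun g φ φ' hφ hφ' => ?_⟩
    rw [Har.tr_eq_of g φ φ' hφ']
    exact h.inv g φ hφ

theorem main : ∃ m : Measure GX, InvRadon m ∧ ∃ π : Submodule ℂ (Lp ℂ 2 m), IsIrr m π ∧
    p511 ∈ pm m π ∧ p43 ∈ pm m π := by
  obtain ⟨μ, hμ, hμr, hμi⟩ := exists_haar
  obtain ⟨m, hw, hm0, hmc, hms⟩ := exists_weil μ
  obtain ⟨U₀, hU₀, hker⟩ := exists_U
  obtain ⟨b, hb, hbc, hb0, hbU, hb1, -⟩ := exists_b hU₀
  have hsc : ∀ t : Sl2, SecondCountableTopology t.V := fun t =>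
    TopologicalSpace.Subtype.secondCountableTopology (t.V : Set (U7 AQ))
  obtain ⟨ν1, hν1⟩ := exists_invProb (dis_VQ t1)
  obtain ⟨ν2, hν2⟩ := exists_invProb (dis_VQ t2)
  obtain ⟨hpos, hne⟩ := hker b hb hbc hb0 hbU hb1 ν1 ν2 hν1 hν2
  obtain ⟨π, hπ, hπ0, hπi, ⟨F1, hF1, hF1π, hF1n⟩, ⟨F2, hF2, hF2π, hF2n⟩, v, hv, hvL, hvc⟩ :=
    Har.main_quot (μ := μ) (m := m) dis_Gam hw isCompact_LL (χ := fun l => (chi l : ℂ))
      (fun l _ => Circle.norm_coe _) cusp bumps_LL (t2.cyc ν2 hν2) (t1.cyc ν1 hν1) hν2.openPos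
      hν1.openPos (continuous_bump hb) (supp_bump hbc) (fun l hl g => bump_right b hl g)
      hpos hne
  have hno : ∀ p' : Nat.Partition 7, (p'.parts = {7} ∨ p'.parts = {6, 1} ∨ p'.parts = {5, 2}) →
      ¬ HasCoef m π p' := by
    rintro p' hp' ⟨t, ht, F, hF, hFπ, ν, hν, g, hg⟩
    rw [coef_eq t ν hν] at hg
    obtain ⟨g', hg'⟩ := hvc (t.cyc ν hν) ⟨F, hF, hFπ, g, hg⟩
    rw [← coef_eq t ν hν] at hg'
    exact hg' (excl t p' ht hp' hν hvL g')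
  refine ⟨m, ⟨hm0, hmc, fun g => (measurePreserving_smul g m).map_eq⟩, π,
    ⟨main_sub.2 hπ, hπ0, fun σ hσ hσi => hπi σ hσ (main_sub.1 hσi)⟩,
    ⟨⟨t1, type_t1, F2, hF2, hF2π, ν1, hν1, 1, ?_⟩, fun p' h1 h2 =>
      hno p' (above (Or.inl ⟨h1, h2⟩))⟩,
    ⟨⟨t2, type_t2, F1, hF1, hF1π, ν2, hν2, 1, ?_⟩, fun p' h1 h2 =>
      hno p' (above (Or.inr ⟨h1, h2⟩))⟩⟩
  · rw [coef_eq t1 ν1 hν1]
    exact hF2n
  · rw [coef_eq t2 ν2 hν2]
    exact hF1n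

end Pool.Agent.MPabcfcd
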