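import Pool.Agent.Lib.MP_abcfcd_nt.Auto

/-!
# The statement

The definitions of the statement, with named types and instances. The mathematics is that of
`Defs.lean` and `Auto.lean`, and the two layers agree by definition (`StMain.lean`). The proofs
are taken from the first layer.

The space `G(ℚ) \ G(𝔸)` is `G(𝔸) / G(ℚ)` after the inversion `g ↦ g⁻¹`: a function `F` on
`G(𝔸) / G(ℚ)` is the automorphic function `φ g = F (g⁻¹)`.
-/

set_option autoImplicit false

open Matrix Topology MeasureTheory
open scoped RestrictedProduct ENNReal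

namespace Pool.Agent.MPabcfcd.St

noncomputable section

/-! ### The unitary group -/

section group

variable {R S : Type} [CommRing R] [CommRing S]

/-- The ring `R[√-7]`, with elements `⟨a, b⟩ = a + b √-7`. -/
def E (R : Type) [CommRing R] : Type := QuadraticAlgebra R (-7) 0

instance instCommRingE : CommRing (E R) := QuadraticAlgebra.instCommRing

/-- The conjugation `a + b √-7 ↦ a - b √-7`. -/
instance instStarRingE : StarRing (E R) := QuadraticAlgebra.instStarRing

/-- The number `a` of `a + b √-7`. -/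
def E.re (z : E R) : R := QuadraticAlgebra.re z

/-- The number `b` of `a + b √-7`. -/
def E.im (z : E R) : R := QuadraticAlgebra.im z

/-- The map `R[√-7] → S[√-7]` of a ring homomorphism `R → S`, as a function. -/
def E.mapFun (f : R →+* S) (z : E R) : E S := QuadraticAlgebra.mk (f z.re) (f z.im)

theorem E.mapFun_one (f : R →+* S) : E.mapFun f 1 = 1 := (E7.map f).map_one'

theorem E.mapFun_mul (f : R →+* S) (x y : E R) :
    E.mapFun f (x * y) = E.mapFun f x * E.mapFun f y := (E7.map f).map_mul' x y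

theorem E.mapFun_zero (f : R →+* S) : E.mapFun f 0 = 0 := (E7.map f).map_zero'

theorem E.mapFun_add (f : R →+* S) (x y : E R) :
    E.mapFun f (x + y) = E.mapFun f x + E.mapFun f y := (E7.map f).map_add' x y

/-- The map `R[√-7] → S[√-7]` of a ring homomorphism `R → S`. -/
def E.map (f : R →+* S) : E R →+* E S where
  toFun := E.mapFun f
  map_one' := E.mapFun_one f
  map_mul' := E.mapFun_mul f
  map_zero' := E.mapFun_zero f
  map_add' := E.mapFun_add f

/-- The antidiagonal matrix. -/
def J (R : Type) [CommRing R] : Matrix (Fin 7) (Fin 7) (E R) :=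
  Matrix.of fun i j => if j = i.rev then 1 else 0

/-- The unitary group of the Hermitian form with the antidiagonal matrix over `R[√-7]`. -/
def U (R : Type) [CommRing R] : Type :=
  {g : Matrix (Fin 7) (Fin 7) (E R) // gᴴ * J R * g = J R}

/-- The matrix of an element of the unitary group. -/
def U.mat (g : U R) : Matrix (Fin 7) (Fin 7) (E R) := g.1

theorem U.mul_aux (g h : U R) : (g.mat * h.mat)ᴴ * J R * (g.mat * h.mat) = J R :=
  (Mul.mul (α := U7 R) g h).2

theorem U.one_aux : (1 : Matrix (Fin 7) (Fin 7) (E R))ᴴ * J R * 1 = J R := (1 : U7 R).2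

theorem U.inv_aux (g : U R) : (J R * g.matᴴ * J R)ᴴ * J R * (J R * g.matᴴ * J R) = J R :=
  (Inv.inv (α := U7 R) g).2

instance instMulU : Mul (U R) := ⟨fun g h => ⟨g.mat * h.mat, U.mul_aux g h⟩⟩

instance instOneU : One (U R) := ⟨⟨1, U.one_aux⟩⟩

instance instInvU : Inv (U R) := ⟨fun g => ⟨J R * g.matᴴ * J R, U.inv_aux g⟩⟩

theorem U.assoc (a b c : U R) : a * b * c = a * (b * c) := mul_assoc (G := U7 R) a b c

theorem U.one_mul (a : U R) : 1 * a = a := _root_.one_mul (M := U7 R) a

theorem U.inv_mul (a : U R) : a⁻¹ * a = 1 := inv_mul_cancel (G := U7 R) a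

instance instGroupU : Group (U R) := Group.ofLeftAxioms U.assoc U.one_mul U.inv_mul

theorem U.map_aux (f : R →+* S) (g : U R) :
    (g.mat.map (E.map f))ᴴ * J S * g.mat.map (E.map f) = J S := (U7.map f g).2

/-- The map of unitary groups of a ring homomorphism. -/
def U.mapFun (f : R →+* S) (g : U R) : U S := ⟨g.mat.map (E.map f), U.map_aux f g⟩

theorem U.mapFun_one (f : R →+* S) : U.mapFun f 1 = 1 := (U7.map f).map_one'

theorem U.mapFun_mul (f : R →+* S) (g h : U R) :
    U.mapFun f (g * h) = U.mapFun f g * U.mapFun f h := (U7.map f).map_mul' g h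

/-- The homomorphism of unitary groups of a ring homomorphism. -/
def U.map (f : R →+* S) : U R →* U S where
  toFun := U.mapFun f
  map_one' := U.mapFun_one f
  map_mul' := U.mapFun_mul f

section top

variable [TopologicalSpace R]

/-- The topology of `R[√-7] = R × R`. -/
instance instTopE : TopologicalSpace (E R) :=
  TopologicalSpace.induced (fun z : E R => (z.re, z.im)) inferInstance

/-- The topology of the unitary group as a set of matrices. -/
instance instTopU : TopologicalSpace (U R) := TopologicalSpace.induced U.mat inferInstance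

instance instMeasU : MeasurableSpace (U R) := borel (U R)

end top

end group

/-! ### Adeles -/

/-- The finite adeles of `ℚ`. -/
def Af : Type := Πʳ p : Nat.Primes, [ℚ_[p], PadicInt.subring p]

instance instCommRingAf : CommRing Af :=
  RestrictedProduct.instCommRingCoeOfSubringClass fun p : Nat.Primes => ℚ_[p]

instance instTopAf : TopologicalSpace Af :=
  RestrictedProduct.topologicalSpace (fun p : Nat.Primes => ℚ_[p])
    (fun p : Nat.Primes => (PadicInt.subring p : Set ℚ_[p])) Filter.cofinite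

/-- The component of a finite adele at a prime. -/
def Af.at (x : Af) (p : Nat.Primes) : ℚ_[p] := x.1 p

/-- The adeles of `ℚ`. -/
def AQ : Type := ℝ × Af

instance instCommRingAQ : CommRing AQ := Prod.instCommRing

instance instTopAQ : TopologicalSpace AQ := instTopologicalSpaceProd

/-- The diagonal embedding of the rational numbers into the finite adeles, as a function. -/
def ratAfFun (q : ℚ) : Af :=
  (⟨fun p => (q : ℚ_[p]), ratAf_aux q⟩ : Πʳ p : Nat.Primes, [ℚ_[p], PadicInt.subring p])

/-- The diagonal embedding of the rational numbers into the adeles, as a function. -/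
def ratFun (q : ℚ) : AQ := ((q : ℝ), ratAfFun q)

theorem ratFun_one : ratFun 1 = 1 := MPabcfcd.ratAQ.map_one'

theorem ratFun_mul (x y : ℚ) : ratFun (x * y) = ratFun x * ratFun y :=
  MPabcfcd.ratAQ.map_mul' x y

theorem ratFun_zero : ratFun 0 = 0 := MPabcfcd.ratAQ.map_zero'

theorem ratFun_add (x y : ℚ) : ratFun (x + y) = ratFun x + ratFun y :=
  MPabcfcd.ratAQ.map_add' x y

/-- The diagonal embedding of the rational numbers into the adeles. -/
def ratAQ : ℚ →+* AQ where
  toFun := ratFun
  map_one' := ratFun_one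
  map_mul' := ratFun_mul
  map_zero' := ratFun_zero
  map_add' := ratFun_add

/-- The group `G(ℚ)` of rational points as a subgroup of the adelic group `G(𝔸) = U AQ`. -/
def Gam : Subgroup (U AQ) := (U.map ratAQ).range

/-! ### The Lie algebra and the unipotent groups -/

section lie

variable {R S : Type} [CommRing R] [CommRing S]

/-- Skew-Hermitian matrices: the Lie algebra of the unitary group. -/
def Sk (Z : Matrix (Fin 7) (Fin 7) (E R)) : Prop := Zᴴ * J R + J R * Z = 0

/-- Matrices of degree `i` for the grading given by `H`: `[H, T] = i T`. -/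
def IsGr (H : Matrix (Fin 7) (Fin 7) (E R)) (i : ℤ) (T : Matrix (Fin 7) (Fin 7) (E R)) : Prop :=
  H * T - T * H = (i : E R) • T

theorem IsGr.add (H : Matrix (Fin 7) (Fin 7) (E R)) (i : ℤ)
    {S T : Matrix (Fin 7) (Fin 7) (E R)} (hS : IsGr H i S) (hT : IsGr H i T) :
    IsGr H i (S + T) := (MPabcfcd.gr (R := R) H i).add_mem' hS hT

theorem IsGr.zero (H : Matrix (Fin 7) (Fin 7) (E R)) (i : ℤ) : IsGr H i 0 :=
  (MPabcfcd.gr (R := R) H i).zero_mem'

theorem IsGr.smul (H : Matrix (Fin 7) (Fin 7) (E R)) (i : ℤ) (c : E R)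
    {T : Matrix (Fin 7) (Fin 7) (E R)} (hT : IsGr H i T) : IsGr H i (c • T) :=
  (MPabcfcd.gr (R := R) H i).smul_mem' c hT

/-- The matrices of degree `i` for the grading given by `H`: `[H, T] = i T`. -/
def gr (H : Matrix (Fin 7) (Fin 7) (E R)) (i : ℤ) :
    Submodule (E R) (Matrix (Fin 7) (Fin 7) (E R)) where
  carrier := {T | IsGr H i T}
  add_mem' := IsGr.add H i
  zero_mem' := IsGr.zero H i
  smul_mem' c _ h := IsGr.smul H i c h

/-- The sum of the matrices of degree at least `k`. -/
def fil (H : Matrix (Fin 7) (Fin 7) (E R)) (k : ℤ) :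
    Submodule (E R) (Matrix (Fin 7) (Fin 7) (E R)) := ⨆ (i : ℤ) (_ : k ≤ i), gr H i

/-- The unitary matrices `v` such that `v - 1` is a sum of matrices of degrees at least two. -/
def IsUni (H : Matrix (Fin 7) (Fin 7) (E R)) (v : U R) : Prop := v.mat - 1 ∈ fil H 2

theorem IsUni.mul (H : Matrix (Fin 7) (Fin 7) (E R)) (hH : Sk H) {a b : U R} (ha : IsUni H a)
    (hb : IsUni H b) : IsUni H (a * b) := (MPabcfcd.uni (R := R) H hH).mul_mem' ha hb

theorem IsUni.one (H : Matrix (Fin 7) (Fin 7) (E R)) (hH : Sk H) : IsUni H 1 :=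
  (MPabcfcd.uni (R := R) H hH).one_mem'

theorem IsUni.inv (H : Matrix (Fin 7) (Fin 7) (E R)) (hH : Sk H) {a : U R} (ha : IsUni H a) :
    IsUni H a⁻¹ := (MPabcfcd.uni (R := R) H hH).inv_mem' ha

/-- The unipotent group `exp (⨁_{i ≥ 2} 𝔤_i)` of a grading element: the unitary matrices `v` such
that `v - 1` is a sum of matrices of degrees at least two. -/
def uni (H : Matrix (Fin 7) (Fin 7) (E R)) (hH : Sk H) : Subgroup (U R) where
  carrier := {v | IsUni H v}
  mul_mem' := IsUni.mul H hH
  one_mem' := IsUni.one H hH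
  inv_mem' := IsUni.inv H hH

/-- Extension of scalars. -/
def mapM (f : R →+* S) (Z : Matrix (Fin 7) (Fin 7) (E R)) : Matrix (Fin 7) (Fin 7) (E S) :=
  Z.map (E.map f)

theorem Sk.map (f : R →+* S) {Z : Matrix (Fin 7) (Fin 7) (E R)} (hZ : Sk Z) : Sk (mapM f Z) :=
  MPabcfcd.Sk.map (R := R) f hZ

end lie

/-! ### Nilpotent elements, unipotent groups and their characters -/

/-- An `sl₂`-triple `(e, h, X)` in the Lie algebra of `G` over `ℚ`, with `[h, X] = -2 X`. -/
structure Sl2 where
  /-- the raising element -/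
  e : Matrix (Fin 7) (Fin 7) (E ℚ)
  /-- the grading element -/
  h : Matrix (Fin 7) (Fin 7) (E ℚ)
  /-- the nilpotent element -/
  X : Matrix (Fin 7) (Fin 7) (E ℚ)
  sk_e : Sk e
  sk_h : Sk h
  sk_X : Sk X
  h_e : h * e - e * h = 2 • e
  h_X : h * X - X * h = -(2 • X)
  e_X : e * X - X * e = h

/-- The group `V_X(𝔸)`. -/
def Sl2.V (t : Sl2) : Subgroup (U AQ) := uni (mapM ratAQ t.h) (t.sk_h.map ratAQ)

/-- A rational number `q` such that `x - q` is integral at all primes. -/
def ratPart (x : Af) : ℚ :=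
  open Classical in
  if h : ∃ q : ℚ, ∀ p : Nat.Primes, x.at p - (q : ℚ_[p]) ∈ PadicInt.subring p
  then h.choose else 0

/-- The standard character of `𝔸 / ℚ`: if `x = q + (r, z)` with a rational number `q`, a real
number `r` and `z` integral at all primes, then `psi x = exp (2 π i r)`. -/
def psi (x : AQ) : Circle := Real.fourierChar (x.1 - ratPart x.2)

/-- The character `ψ_X (exp Z) = ψ (tr (X Z))` of `V_X(𝔸)`. Since `X` has degree `-2`, it is
`ψ (tr (X (v - 1)))`, and this trace is in `𝔸`. -/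
def Sl2.ch (t : Sl2) (v : U AQ) : Circle :=
  psi (Matrix.trace (mapM ratAQ t.X * (v.mat - 1))).re

/-! ### Functions on `G / Γ`, for `G = G(𝔸)` and `Γ = G(ℚ)` -/

section aut

variable {G : Type} [Group G] [TopologicalSpace G] [MeasurableSpace G] {Γ : Subgroup G}

/-- Invariant Radon measures on `G / Γ`. -/
structure InvRadon (m : Measure (G ⧸ Γ)) : Prop where
  ne_zero : m ≠ 0
  fin : IsFiniteMeasureOnCompacts m
  inv : ∀ g : G, m.map (fun x => g • x) = m

/-- Closed invariant subspaces of the space of square integrable functions. -/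
structure IsSub (m : Measure (G ⧸ Γ)) (π : Submodule ℂ (Lp ℂ 2 m)) : Prop where
  closed : IsClosed (π : Set (Lp ℂ 2 m))
  inv : ∀ (g : G) (φ φ' : Lp ℂ 2 m), φ ∈ π → φ' =ᵐ[m] (fun x => φ (g⁻¹ • x)) → φ' ∈ π

/-- Irreducible closed invariant subspaces. -/
structure IsIrr (m : Measure (G ⧸ Γ)) (π : Submodule ℂ (Lp ℂ 2 m)) : Prop where
  sub : IsSub m π
  ne_bot : π ≠ ⊥
  irr : ∀ σ : Submodule ℂ (Lp ℂ 2 m), σ ≤ π → IsSub m σ → σ = ⊥ ∨ σ = π

/-- Invariant probability measures on `V / W`. -/
structure InvProb {V : Type} [Group V] [MeasurableSpace V] {W : Subgroup V}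
    (ν : Measure (V ⧸ W)) : Prop where
  prob : IsProbabilityMeasure ν
  inv : ∀ g : V, ν.map (fun x => g • x) = ν

/-- The Fourier coefficient at `g` of the function `φ g = F (g⁻¹)`, for a subgroup `V` and a
character `ψ` of it. It is `∫ φ (v g) ψ(v)⁻¹ dv` over `(V ∩ Γ) \ V`, after the substitution
`v ↦ v⁻¹`. -/
def coef (V : Subgroup G) (ψ : G → Circle) (ν : Measure (V ⧸ Γ.subgroupOf V)) (F : G ⧸ Γ → ℂ)
    (g : G) : ℂ :=
  ∫ v : V ⧸ Γ.subgroupOf V, F (QuotientGroup.mk (g⁻¹ * (v.out : G))) * (ψ (v.out : G) : ℂ) ∂ν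

/-- Some continuous function in `π` has a nonzero Fourier coefficient for `V` and `ψ`. -/
def CoefAt (m : Measure (G ⧸ Γ)) (π : Submodule ℂ (Lp ℂ 2 m)) (V : Subgroup G)
    (ψ : G → Circle) : Prop :=
  ∃ F : G ⧸ Γ → ℂ, Continuous F ∧ (∃ φ ∈ π, φ =ᵐ[m] F) ∧
    ∃ ν : Measure (V ⧸ Γ.subgroupOf V), InvProb ν ∧ ∃ g : G, coef V ψ ν F g ≠ 0

end aut

/-! ### Maximal partitions -/

/-- The Jordan type of a nilpotent matrix, in terms of the ranks of the powers. -/
def HasType (p : Nat.Partition 7) (X : Matrix (Fin 7) (Fin 7) (E ℚ)) : Prop :=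
  ∀ k : ℕ, (X ^ k).rank = (p.parts.map fun i => i - k).sum

/-- The subspace `π` has a nonzero Fourier coefficient attached to the partition `p`. -/
def HasCoef (m : Measure (U AQ ⧸ Gam)) (π : Submodule ℂ (Lp ℂ 2 m)) (p : Nat.Partition 7) :
    Prop :=
  ∃ t : Sl2, HasType p t.X ∧ CoefAt m π t.V t.ch

/-- The dominance order: `p ≥ q`. -/
def Dom (p q : Nat.Partition 7) : Prop :=
  ∀ k : ℕ, ((q.parts.sort (· ≥ ·)).take k).sum ≤ ((p.parts.sort (· ≥ ·)).take k).sum

/-- The set of maximal partitions with nonzero Fourier coefficients. -/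
def pm (m : Measure (U AQ ⧸ Gam)) (π : Submodule ℂ (Lp ℂ 2 m)) : Set (Nat.Partition 7) :=
  {p | HasCoef m π p ∧ ∀ p', Dom p' p → p' ≠ p → ¬ HasCoef m π p'}

end

end Pool.Agent.MPabcfcd.St
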