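import Pool.Agent.Lib.MP_abcfcd_nt.St
import Pool.Agent.Lib.MP_abcfcd_nt.Main

/-!
# The main theorem for the definitions of `St.lean`

The types, group laws, topologies, measurable spaces, subgroups and characters of the two layers
are equal by definition, and the structures `Sl2`, `InvProb`, `InvRadon`, `IsSub`, `IsIrr` have the
same fields.
-/

set_option autoImplicit false

open Matrix Topology MeasureTheory
open scoped RestrictedProduct ENNReal

namespace Pool.Agent.MPabcfcd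

/-- The triple of the first layer. -/
def toSl (t : St.Sl2) : Sl2 where
  e := t.e
  h := t.h
  X := t.X
  sk_e := t.sk_e
  sk_h := t.sk_h
  sk_X := t.sk_X
  h_e := t.h_e
  h_X := t.h_X
  e_X := t.e_X

/-- The triple of the second layer. -/
def ofSl (t : Sl2) : St.Sl2 where
  e := t.e
  h := t.h
  X := t.X
  sk_e := t.sk_e
  sk_h := t.sk_h
  sk_X := t.sk_X
  h_e := t.h_e
  h_X := t.h_X
  e_X := t.e_X

theorem toSl_ofSl (t : Sl2) : toSl (ofSl t) = t := rfl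

section gen

variable {G : Type} [Group G] [TopologicalSpace G] [MeasurableSpace G] {Γ : Subgroup G}

/-- Nonzero coefficients for given groups and characters. -/
def HC (V : St.Sl2 → Subgroup G) (ψ : St.Sl2 → G → Circle) (m : Measure (G ⧸ Γ))
    (π : Submodule ℂ (Lp ℂ 2 m)) (p : Nat.Partition 7) : Prop :=
  ∃ t : St.Sl2, St.HasType p t.X ∧ St.CoefAt m π (V t) (ψ t)

/-- The statement for given groups and characters. -/
def PP (G : Type) [Group G] [TopologicalSpace G] [MeasurableSpace G] (Γ : Subgroup G)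
    (V : St.Sl2 → Subgroup G) (ψ : St.Sl2 → G → Circle) : Prop :=
  ∃ m : Measure (G ⧸ Γ), St.InvRadon m ∧ ∃ π : Submodule ℂ (Lp ℂ 2 m), St.IsIrr m π ∧
    ∃ p q : Nat.Partition 7, p.parts = {5, 1, 1} ∧ q.parts = {4, 3} ∧
      (HC V ψ m π p ∧ ∀ p', St.Dom p' p → p' ≠ p → ¬ HC V ψ m π p') ∧
      (HC V ψ m π q ∧ ∀ p', St.Dom p' q → p' ≠ q → ¬ HC V ψ m π p')

end gen

theorem coefAt_iff {m : Measure GX} {π : Submodule ℂ (Lp ℂ 2 m)} {t : Sl2} :
    St.CoefAt (G := U7 AQ) (Γ := Gam) m π t.V t.ch ↔ CoefAt m π t := by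
  constructor
  · rintro ⟨F, hF, hφ, ν, hν, g, hg⟩
    exact ⟨F, hF, hφ, ν, ⟨hν.prob, hν.inv⟩, g, hg⟩
  · rintro ⟨F, hF, hφ, ν, hν, g, hg⟩
    exact ⟨F, hF, hφ, ν, ⟨hν.prob, hν.inv⟩, g, hg⟩

theorem hc_iff {m : Measure GX} {π : Submodule ℂ (Lp ℂ 2 m)} (p : Nat.Partition 7) :
    HC (G := U7 AQ) (Γ := Gam) (fun t => (toSl t).V) (fun t => (toSl t).ch) m π p ↔
      HasCoef m π p := by
  constructor
  · rintro ⟨t, ht, h⟩
    exact ⟨toSl t, ht, coefAt_iff.1 h⟩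
  · rintro ⟨t, ht, h⟩
    exact ⟨ofSl t, ht, coefAt_iff.2 h⟩

theorem pp_old : PP (U7 AQ) Gam (fun t => (toSl t).V) (fun t => (toSl t).ch) := by
  obtain ⟨m, hm, π, hπ, h1, h2⟩ := main
  refine ⟨m, ⟨hm.ne_zero, hm.fin, hm.inv⟩, π, ⟨⟨hπ.sub.closed, hπ.sub.inv⟩, hπ.ne_bot,
    fun σ h hs => hπ.irr σ h ⟨hs.closed, hs.inv⟩⟩, p511, p43, rfl, rfl, ⟨(hc_iff _).2 h1.1, ?_⟩,
    ⟨(hc_iff _).2 h2.1, ?_⟩⟩
  · exact fun p' hd hn hc => h1.2 p' hd hn ((hc_iff _).1 hc)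
  · exact fun p' hd hn hc => h2.2 p' hd hn ((hc_iff _).1 hc)

theorem pp_new : @PP (St.U St.AQ) St.instGroupU St.instTopU St.instMeasU St.Gam
    (fun t => t.V) (fun t => t.ch) := pp_old

theorem st_main : ∃ m : Measure (St.U St.AQ ⧸ St.Gam), St.InvRadon m ∧
    ∃ π : Submodule ℂ (Lp ℂ 2 m), St.IsIrr m π ∧
      ∃ p q : Nat.Partition 7, p.parts = {5, 1, 1} ∧ q.parts = {4, 3} ∧ p ∈ St.pm m π ∧
        q ∈ St.pm m π := pp_new

end Pool.Agent.MPabcfcd
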